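import Mathlib
import Pool.Agent.Lib_MP_a20b56_co.Problem
import Pool.Agent.Lib_MP_a20b56_co.Final

set_option autoImplicit false

namespace Pool.Agent.Results.MP_a20b56_co.ExponentAtMostD

open MPa20b56

/-- For every `d ≥ 1`: every exponent `α > d` is admissible in dimension `d`, and the exponent
`α_d` of volumetric weak `ε`-nets satisfies `1 ≤ α_d ≤ d < d + 1`. Moreover `α_1 = 1`. -/
theorem result :
    (∀ d : ℕ, 1 ≤ d →
      (∀ α : ℝ, (d : ℝ) < α → Admissible d α) ∧
      1 ≤ alpha d ∧ alpha d ≤ (d : EReal) ∧ alpha d < (d : EReal) + 1) ∧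
    alpha 1 = 1 :=
  ⟨fun _ hd => ⟨fun _ hα => admissible_of_lt hd hα, one_le_alpha hd, alpha_le hd, alpha_lt hd⟩,
    alpha_one⟩

end Pool.Agent.Results.MP_a20b56_co.ExponentAtMostD
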