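import Mathlib
import Pool.Agent.Lib_MP_a20b56_co.Problem
import Pool.Agent.Lib_MP_a20b56_pl.Defs
import Pool.Agent.Lib_MP_a20b56_pl.Final2

set_option autoImplicit false

namespace Pool.Agent.Results.MP_a20b56_co.PlanarEquality

open MPa20b56

/-- Volumetric weak `ε`-nets and ordinary weak `ε`-nets. In every dimension an exponent that is
admissible for volumetric nets is admissible for ordinary weak nets of finite point sets, so
`β_d ≤ α_d`. In the plane the converse holds up to an arbitrarily small loss in the exponent:
if `β` is admissible for finite point sets in the plane, then every `α > β` is admissible for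
families of planar convex sets of area `1`. Hence `α_2 = β_2`. -/
theorem result :
    (∀ d : ℕ, 1 ≤ d → ∀ α : ℝ, Admissible d α → PointAdmissible d α) ∧
    (∀ d : ℕ, 1 ≤ d → beta d ≤ alpha d) ∧
    (∀ β α : ℝ, PointAdmissible 2 β → β < α → Admissible 2 α) ∧
    alpha 2 = beta 2 :=
  ⟨fun _ hd _ h => Pl.pointAdmissible_of_admissible hd h,
    fun _ hd => Pl.beta_le_alpha hd,
    fun _ _ h hα => Pl.admissible_two h hα,
    Pl.alpha_two⟩

end Pool.Agent.Results.MP_a20b56_co.PlanarEquality
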