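import Mathlib
import Pool.Agent.Lib_MP_a20b56_co.Problem
import Pool.Agent.Lib_MP_a20b56_pl.Defs
import Pool.Agent.Lib_MP_a20b56_lb.Fin
import Pool.Agent.Lib_MP_a20b56_qd.Fin

set_option autoImplicit false

namespace Pool.Agent.Results.MP_a20b56_co.ThickSlabBounds

open MPa20b56

/-- If `n (n + 5) + 2 ≤ 2 d` then the exponent `β_d` of ordinary weak `ε`-nets of finite point sets
in `ℝ^d` and the exponent `α_d` of volumetric weak `ε`-nets satisfy `n + 1 ≤ β_d ≤ α_d`. So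
`α_4 ≥ β_4 ≥ 2`, `α_8 ≥ β_8 ≥ 3`, `α_13 ≥ β_13 ≥ 4`, and so on. Moreover `3/2 ≤ β_d ≤ α_d` for every
`d ≥ 3`. -/
theorem result :
    (∀ d n : ℕ, n * (n + 5) + 2 ≤ 2 * d →
      (((n : ℝ) + 1 : ℝ) : EReal) ≤ beta d ∧ beta d ≤ alpha d) ∧
    (∀ d : ℕ, 3 ≤ d → ((3 / 2 : ℝ) : EReal) ≤ beta d ∧ beta d ≤ alpha d) :=
  ⟨fun _ _ h => ⟨Lb.le_beta fun _ hβ => Qd.thick_le h hβ, Lb.beta_le_alpha' (by omega)⟩,
    fun _ hd => ⟨Lb.le_beta fun _ hβ => Lb.three_halves_le hd hβ, Lb.beta_le_alpha' (by omega)⟩⟩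

end Pool.Agent.Results.MP_a20b56_co.ThickSlabBounds
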